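import Pool.Agent.helper65.GCA.Main

set_option autoImplicit false

/-!
# The size of the global curve attractor of a rational Thurston map

There is a function `B` such that, for every rational Thurston map `F` of degree `d ≥ 2` whose
pullback relation on curves has a finite global attractor, the minimal finite global attractor
`𝒜_F` satisfies `|𝒜_F| ≤ B (|P_F|, d)`.

The definitions are in `Pool.Agent.helper65.GCA.Defs`.
-/

namespace Pool.Agent.Results.MP_5e4b6b_an.AttractorBound

open Pool.Agent.helper65.GCA

theorem result : ∃ B : ℕ → ℕ → ℕ, ∀ (d : ℕ) (F : S2 → S2), 2 ≤ d → IsRationalThurston d F →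
    (∃ A, IsFGA F (post F) A) →
      IsFGA F (post F) (attractor F (post F)) ∧
        (attractor F (post F)).ncard ≤ B (post F).ncard d :=
  main

end Pool.Agent.Results.MP_5e4b6b_an.AttractorBound
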